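import Mathlib

/-!
Linear algebra for pairings: finite dimension from a bound on dual families, and the five lemma for
pairings of exact sequences of vector spaces.
-/

set_option autoImplicit false

open Module

namespace Pool.Agent.H839.DM

universe u v w

variable {F : Type u} [Field F]

section Bound

variable {V : Type v} {W : Type w} [AddCommGroup V] [Module F V] [AddCommGroup W] [Module F W]

/-- Linearly independent vectors have a dual family if the pairing is nondegenerate. -/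
lemma exists_dual (b : V →ₗ[F] W →ₗ[F] F) (hb : Function.Injective b) {ι : Type*} [Fintype ι]
    [DecidableEq ι] (x : ι → V) (hx : LinearIndependent F x) :
    ∃ y : ι → W, ∀ i j, b (x i) (y j) = if i = j then 1 else 0 := by
  let T : W →ₗ[F] (ι → F) := LinearMap.pi (fun i => b (x i))
  have hT : LinearMap.range T = ⊤ := by
    by_contra hne
    obtain ⟨f, hf, hle⟩ := Submodule.exists_le_ker_of_lt_top (LinearMap.range T)
      (lt_top_iff_ne_top.2 hne)
    have hsum : ∑ i, f (Pi.single i 1) • x i = 0 := by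
      apply hb
      rw [map_zero, map_sum]
      ext w
      have h1 : f (T w) = 0 := hle ⟨w, rfl⟩
      have h2 : T w = ∑ i, (b (x i) w) • (Pi.single i (1 : F) : ι → F) := by
        ext k
        simp [T, Finset.sum_apply, Pi.single_apply]
      rw [h2, map_sum] at h1
      simp only [LinearMap.sum_apply, map_smul, LinearMap.smul_apply, LinearMap.zero_apply]
      rw [← h1]
      refine Finset.sum_congr rfl (fun i _ => ?_)
      rw [map_smul, smul_eq_mul, smul_eq_mul, mul_comm]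
    have h0 := Fintype.linearIndependent_iff.1 hx _ hsum
    apply hf
    apply LinearMap.ext
    intro z
    have : z = ∑ i, z i • (Pi.single i (1 : F) : ι → F) := by
      ext k
      simp [Finset.sum_apply, Pi.single_apply]
    rw [this, map_sum]
    simp [h0]
  have hsurj : Function.Surjective T := LinearMap.range_eq_top.1 hT
  choose y hy using fun j : ι => hsurj (Pi.single j 1)
  refine ⟨y, fun i j => ?_⟩
  have := congrFun (hy j) i
  simp only [T, LinearMap.pi_apply, Pi.single_apply] at this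
  exact this

/-- A bound for dual families bounds the dimension. -/
lemma finite_of_bound (b : V →ₗ[F] W →ₗ[F] F) (hb : Function.Injective b) (n : ℕ)
    (h : ∀ (r : ℕ) (x : Fin r → V) (y : Fin r → W),
      (∀ i j, b (x i) (y j) = if i = j then 1 else 0) → r ≤ n) :
    Module.Finite F V ∧ Module.finrank F V ≤ n := by
  have hr : Module.rank F V ≤ n := by
    refine rank_le (fun s hs => ?_)
    classical
    let e : Fin s.card ≃ s := s.equivFin.symm
    have hx : LinearIndependent F (fun i : Fin s.card => ((e i : s) : V)) :=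
      hs.comp e e.injective
    obtain ⟨y, hy⟩ := exists_dual b hb _ hx
    exact h _ _ y hy
  have hlt : Module.rank F V < Cardinal.aleph0 := lt_of_le_of_lt hr (Cardinal.natCast_lt_aleph0)
  have hfin : Module.Finite F V := Module.rank_lt_aleph0_iff.1 hlt
  refine ⟨hfin, ?_⟩
  rw [← Module.finrank_eq_rank] at hr
  exact_mod_cast hr

/-- A pairing which is nondegenerate on both sides is perfect if dual families are bounded. -/
lemma isPerfPair_of_bound (b : V →ₗ[F] W →ₗ[F] F) (hb : Function.Injective b)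
    (hb' : Function.Injective b.flip) (n : ℕ)
    (h : ∀ (r : ℕ) (x : Fin r → V) (y : Fin r → W),
      (∀ i j, b (x i) (y j) = if i = j then 1 else 0) → r ≤ n) : b.IsPerfPair := by
  have := (finite_of_bound b hb n h).1
  exact LinearMap.IsPerfPair.of_injective hb hb'

end Bound

section Five

variable {V₁ V₂ V₃ V₄ V₅ W₁ W₂ W₃ W₄ W₅ : Type*}
  [AddCommGroup V₁] [Module F V₁] [AddCommGroup V₂] [Module F V₂] [AddCommGroup V₃] [Module F V₃]
  [AddCommGroup V₄] [Module F V₄] [AddCommGroup V₅] [Module F V₅]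
  [AddCommGroup W₁] [Module F W₁] [AddCommGroup W₂] [Module F W₂] [AddCommGroup W₃] [Module F W₃]
  [AddCommGroup W₄] [Module F W₄] [AddCommGroup W₅] [Module F W₅]

/-- The dual of an exact sequence of vector spaces is exact. -/
lemma exact_dualMap {f : V₁ →ₗ[F] V₂} {g : V₂ →ₗ[F] V₃} (h : Function.Exact f g) :
    Function.Exact g.dualMap f.dualMap := by
  rw [LinearMap.exact_iff]
  rw [LinearMap.ker_dualMap_eq_dualAnnihilator_range, LinearMap.range_dualMap_eq_dualAnnihilator_ker,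
    LinearMap.exact_iff.1 h]

/-- The five lemma for pairings (one side). -/
lemma bijective_five {f₁ : V₁ →ₗ[F] V₂} {f₂ : V₂ →ₗ[F] V₃} {f₃ : V₃ →ₗ[F] V₄} {f₄ : V₄ →ₗ[F] V₅}
    {g₁ : W₂ →ₗ[F] W₁} {g₂ : W₃ →ₗ[F] W₂} {g₃ : W₄ →ₗ[F] W₃} {g₄ : W₅ →ₗ[F] W₄}
    (hf₁ : Function.Exact f₁ f₂) (hf₂ : Function.Exact f₂ f₃) (hf₃ : Function.Exact f₃ f₄)
    (hg₁ : Function.Exact g₂ g₁) (hg₂ : Function.Exact g₃ g₂) (hg₃ : Function.Exact g₄ g₃)
    (b₁ : V₁ →ₗ[F] W₁ →ₗ[F] F) (b₂ : V₂ →ₗ[F] W₂ →ₗ[F] F) (b₃ : V₃ →ₗ[F] W₃ →ₗ[F] F)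
    (b₄ : V₄ →ₗ[F] W₄ →ₗ[F] F) (b₅ : V₅ →ₗ[F] W₅ →ₗ[F] F)
    (c₁ : ∀ x y, b₂ (f₁ x) y = b₁ x (g₁ y)) (c₂ : ∀ x y, b₃ (f₂ x) y = b₂ x (g₂ y))
    (c₃ : ∀ x y, b₄ (f₃ x) y = b₃ x (g₃ y)) (c₄ : ∀ x y, b₅ (f₄ x) y = b₄ x (g₄ y))
    (h₁ : Function.Bijective b₁) (h₂ : Function.Bijective b₂) (h₄ : Function.Bijective b₄)
    (h₅ : Function.Bijective b₅) : Function.Bijective b₃ :=
  LinearMap.bijective_of_surjective_of_bijective_of_bijective_of_injective f₁ f₂ f₃ f₄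
    g₁.dualMap g₂.dualMap g₃.dualMap g₄.dualMap b₁ b₂ b₃ b₄ b₅
    (by ext x y; exact (c₁ x y).symm) (by ext x y; exact (c₂ x y).symm)
    (by ext x y; exact (c₃ x y).symm) (by ext x y; exact (c₄ x y).symm)
    hf₁ hf₂ hf₃ (exact_dualMap hg₁) (exact_dualMap hg₂) (exact_dualMap hg₃)
    h₁.2 h₂ h₄ h₅.1

/-- The five lemma for perfect pairings. -/
lemma isPerfPair_five {f₁ : V₁ →ₗ[F] V₂} {f₂ : V₂ →ₗ[F] V₃} {f₃ : V₃ →ₗ[F] V₄} {f₄ : V₄ →ₗ[F] V₅}
    {g₁ : W₂ →ₗ[F] W₁} {g₂ : W₃ →ₗ[F] W₂} {g₃ : W₄ →ₗ[F] W₃} {g₄ : W₅ →ₗ[F] W₄}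
    (hf₁ : Function.Exact f₁ f₂) (hf₂ : Function.Exact f₂ f₃) (hf₃ : Function.Exact f₃ f₄)
    (hg₁ : Function.Exact g₂ g₁) (hg₂ : Function.Exact g₃ g₂) (hg₃ : Function.Exact g₄ g₃)
    (b₁ : V₁ →ₗ[F] W₁ →ₗ[F] F) (b₂ : V₂ →ₗ[F] W₂ →ₗ[F] F) (b₃ : V₃ →ₗ[F] W₃ →ₗ[F] F)
    (b₄ : V₄ →ₗ[F] W₄ →ₗ[F] F) (b₅ : V₅ →ₗ[F] W₅ →ₗ[F] F)
    (c₁ : ∀ x y, b₂ (f₁ x) y = b₁ x (g₁ y)) (c₂ : ∀ x y, b₃ (f₂ x) y = b₂ x (g₂ y))
    (c₃ : ∀ x y, b₄ (f₃ x) y = b₃ x (g₃ y)) (c₄ : ∀ x y, b₅ (f₄ x) y = b₄ x (g₄ y))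
    (h₁ : b₁.IsPerfPair) (h₂ : b₂.IsPerfPair) (h₄ : b₄.IsPerfPair) (h₅ : b₅.IsPerfPair) :
    b₃.IsPerfPair where
  bijective_left := bijective_five hf₁ hf₂ hf₃ hg₁ hg₂ hg₃ b₁ b₂ b₃ b₄ b₅ c₁ c₂ c₃ c₄
    h₁.bijective_left h₂.bijective_left h₄.bijective_left h₅.bijective_left
  bijective_right := bijective_five hg₃ hg₂ hg₁ hf₃ hf₂ hf₁ b₅.flip b₄.flip b₃.flip b₂.flip
    b₁.flip (fun x y => (c₄ y x).symm) (fun x y => (c₃ y x).symm) (fun x y => (c₂ y x).symm)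
    (fun x y => (c₁ y x).symm)
    h₅.bijective_right h₄.bijective_right h₂.bijective_right h₁.bijective_right

end Five

end Pool.Agent.H839.DM
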