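import Mathlib
import Pool.Agent.H839.DM.LinAlg

/-!
Pairings with the unit object, the categorical trace, realizations.
-/

set_option autoImplicit false

open CategoryTheory CategoryTheory.Limits MonoidalCategory ExactPairing BraidedCategory Module

namespace Pool.Agent.H839.DM

universe u v w x

/-- The categorical trace of an endomorphism of an object of a rigid braided category. -/
noncomputable def catTrace {D : Type u} [Category.{v} D] [MonoidalCategory D] [BraidedCategory D]
    [RightRigidCategory D] {M : D} (f : M ⟶ M) : 𝟙_ D ⟶ 𝟙_ D :=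
  η_ M Mᘁ ≫ f ▷ Mᘁ ≫ (β_ M Mᘁ).hom ≫ ε_ M Mᘁ

section Defs

variable (F : Type w) [Field F] {D : Type u} [Category.{v} D] [Preadditive D] [Linear F D]
  [MonoidalCategory D]

/-- The pairing `Hom(𝟙, N) × Hom(N, 𝟙) → End(𝟙)`, `(f, g) ↦ g ∘ f`, is perfect: both induced maps
`Hom(𝟙, N) → Hom_F(Hom(N, 𝟙), End(𝟙))` and `Hom(N, 𝟙) → Hom_F(Hom(𝟙, N), End(𝟙))` are
bijective. -/
def UnitPerfect (N : D) : Prop :=
  Function.Bijective (Linear.comp (S := F) (𝟙_ D) N (𝟙_ D)) ∧
    Function.Bijective (Linear.comp (S := F) (𝟙_ D) N (𝟙_ D)).flip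

end Defs

section Trace

variable (F : Type w) [Field F] {D : Type u} [Category.{v} D] [Preadditive D] [Linear F D]
  [MonoidalCategory D] [MonoidalPreadditive D] [MonoidalLinear F D] [BraidedCategory D]
  [RightRigidCategory D]

/-- The categorical trace as a linear map. -/
noncomputable def traceMap (M : D) : (M ⟶ M) →ₗ[F] (𝟙_ D ⟶ 𝟙_ D) where
  toFun f := catTrace f
  map_add' f g := by simp [catTrace]
  map_smul' c f := by simp [catTrace]

/-- The trace pairing `Hom(P, N) × Hom(N, P) → End(𝟙)`, `(f, g) ↦ tr(g ∘ f)`. -/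
noncomputable def tracePairing (P N : D) : (P ⟶ N) →ₗ[F] (N ⟶ P) →ₗ[F] (𝟙_ D ⟶ 𝟙_ D) :=
  (Linear.comp (S := F) P N P).compr₂ (traceMap F P)

/-- The trace pairing is perfect. -/
def TracePerfect (P N : D) : Prop :=
  Function.Bijective (tracePairing F P N) ∧ Function.Bijective (tracePairing F P N).flip

end Trace

/-- A realization of `D` with coefficients in `K ⊇ F`: additive functors `ev` and `od` to finite
dimensional vector spaces (the sums of the cohomology groups in even and in odd degrees) such that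
the realization of the unit is one-dimensional and even, and the trace formula of Lefschetz
holds. -/
structure Realization (F : Type w) [Field F] (K : Type x) [Field K] [Algebra F K] (D : Type u)
    [Category.{v} D] [Preadditive D] [Linear F D] [MonoidalCategory D] [BraidedCategory D]
    [RightRigidCategory D] where
  /-- the even part of the realization -/
  ev : D ⥤ ModuleCat.{x} K
  /-- the odd part of the realization -/
  od : D ⥤ ModuleCat.{x} K
  ev_add : ∀ {M N : D} (f g : M ⟶ N), ev.map (f + g) = ev.map f + ev.map g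
  od_add : ∀ {M N : D} (f g : M ⟶ N), od.map (f + g) = od.map f + od.map g
  ev_smul : ∀ {M N : D} (c : F) (f : M ⟶ N), ev.map (c • f) = algebraMap F K c • ev.map f
  od_smul : ∀ {M N : D} (c : F) (f : M ⟶ N), od.map (c • f) = algebraMap F K c • od.map f
  ev_finite : ∀ M : D, Module.Finite K (ev.obj M)
  od_finite : ∀ M : D, Module.Finite K (od.obj M)
  ev_unit : Module.finrank K (ev.obj (𝟙_ D)) = 1
  od_unit : Module.finrank K (od.obj (𝟙_ D)) = 0
  lefschetz : ∀ {M : D} (f : M ⟶ M) (c : F), catTrace f = c • 𝟙 (𝟙_ D) →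
    algebraMap F K c = LinearMap.trace K (ev.obj M) (ev.map f).hom -
      LinearMap.trace K (od.obj M) (od.map f).hom

section Unit

variable {F : Type w} [Field F] {D : Type u} [Category.{v} D] [Preadditive D] [Linear F D]
  [MonoidalCategory D] [BraidedCategory D] [RightRigidCategory D]
  {K : Type x} [Field K] [Algebra F K] (R : Realization F K D)

include R in
lemma Realization.id_ne_zero : 𝟙 (𝟙_ D) ≠ 0 := by
  intro h
  have h1 : R.ev.map (𝟙 (𝟙_ D)) = 0 := by
    have := R.ev_smul (0 : F) (𝟙 (𝟙_ D))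
    rw [zero_smul, map_zero, zero_smul] at this
    rw [h, this]
  rw [R.ev.map_id] at h1
  have h2 : Subsingleton (R.ev.obj (𝟙_ D)) := by
    refine ⟨fun a b => ?_⟩
    have ha : a = 0 := by
      have := congrArg (fun t => t.hom a) h1
      simpa using this
    have hb : b = 0 := by
      have := congrArg (fun t => t.hom b) h1
      simpa using this
    rw [ha, hb]
  have h3 := R.ev_unit
  rw [Module.finrank_zero_of_subsingleton] at h3
  exact absurd h3 (by norm_num)

include R in
lemma Realization.bij_span (hunit : ∀ f : 𝟙_ D ⟶ 𝟙_ D, ∃ c : F, f = c • 𝟙 (𝟙_ D)) :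
    Function.Bijective (LinearMap.toSpanSingleton F (𝟙_ D ⟶ 𝟙_ D) (𝟙 (𝟙_ D))) := by
  constructor
  · rw [← LinearMap.ker_eq_bot, LinearMap.ker_eq_bot']
    intro c hc
    rw [LinearMap.toSpanSingleton_apply] at hc
    exact (smul_eq_zero.1 hc).resolve_right R.id_ne_zero
  · intro f
    obtain ⟨c, hc⟩ := hunit f
    exact ⟨c, by rw [LinearMap.toSpanSingleton_apply, hc]⟩

/-- The identification of `End(𝟙)` with `F`. -/
noncomputable def Realization.sc (R : Realization F K D)
    (hunit : ∀ f : 𝟙_ D ⟶ 𝟙_ D, ∃ c : F, f = c • 𝟙 (𝟙_ D)) : (𝟙_ D ⟶ 𝟙_ D) ≃ₗ[F] F :=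
  (LinearEquiv.ofBijective (LinearMap.toSpanSingleton F (𝟙_ D ⟶ 𝟙_ D) (𝟙 (𝟙_ D)))
    (R.bij_span hunit)).symm

lemma Realization.sc_smul (hunit : ∀ f : 𝟙_ D ⟶ 𝟙_ D, ∃ c : F, f = c • 𝟙 (𝟙_ D)) (c : F) :
    R.sc hunit (c • 𝟙 (𝟙_ D)) = c := by
  unfold Realization.sc
  rw [LinearEquiv.symm_apply_eq, LinearEquiv.ofBijective_apply, LinearMap.toSpanSingleton_apply]

lemma Realization.eq_sc (hunit : ∀ f : 𝟙_ D ⟶ 𝟙_ D, ∃ c : F, f = c • 𝟙 (𝟙_ D))
    (f : 𝟙_ D ⟶ 𝟙_ D) : f = R.sc hunit f • 𝟙 (𝟙_ D) := by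
  obtain ⟨c, hc⟩ := hunit f
  rw [hc, R.sc_smul]

end Unit

end Pool.Agent.H839.DM
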