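import Mathlib
import Pool.Agent.H839.DM.Basic

/-!
Duality: morphisms `P ⟶ N` and `N ⟶ P` as morphisms from and to the unit; nondegeneracy for an object
and its dual.
-/

set_option autoImplicit false
set_option linter.unusedSectionVars false

open CategoryTheory CategoryTheory.Limits MonoidalCategory ExactPairing BraidedCategory Module

namespace Pool.Agent.H839.DM

universe u v w x

section Monoidal

variable {D : Type u} [Category.{v} D] [MonoidalCategory D]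

/-- the name of a morphism -/
noncomputable def nm [RightRigidCategory D] {P N : D} (f : P ⟶ N) : 𝟙_ D ⟶ N ⊗ Pᘁ :=
  η_ P Pᘁ ≫ f ▷ Pᘁ

lemma nm_bijective [RightRigidCategory D] (P N : D) :
    Function.Bijective (nm : (P ⟶ N) → (𝟙_ D ⟶ N ⊗ Pᘁ)) := by
  have key : ∀ f : P ⟶ N, nm f = tensorRightHomEquiv (𝟙_ D) P Pᘁ N ((λ_ P).hom ≫ f) := by
    intro f
    rw [← tensorRightHomEquiv_symm_coevaluation_comp_whiskerRight (Y' := Pᘁ) f,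
      Equiv.apply_symm_apply]
    rfl
  constructor
  · intro f g h
    rw [key, key] at h
    exact (cancel_epi _).1 ((tensorRightHomEquiv _ _ _ _).injective h)
  · intro g
    refine ⟨(λ_ P).inv ≫ (tensorRightHomEquiv (𝟙_ D) P Pᘁ N).symm g, ?_⟩
    rw [key, Iso.hom_inv_id_assoc, Equiv.apply_symm_apply]

/-- the coname of a morphism -/
noncomputable def cnm [BraidedCategory D] [RightRigidCategory D] {P N : D} (g : N ⟶ P) :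
    N ⊗ Pᘁ ⟶ 𝟙_ D :=
  g ▷ Pᘁ ≫ (β_ P Pᘁ).hom ≫ ε_ P Pᘁ

lemma cnm_bijective [BraidedCategory D] [RightRigidCategory D] (P N : D) :
    Function.Bijective (cnm : (N ⟶ P) → (N ⊗ Pᘁ ⟶ 𝟙_ D)) := by
  let _ : ExactPairing (Pᘁ) P := exactPairing_swap P (Pᘁ)
  have hε : ε_ (Pᘁ) P = (β_ P Pᘁ).hom ≫ ε_ P Pᘁ := rfl
  have key : ∀ g : N ⟶ P, cnm g = (tensorRightHomEquiv N (Pᘁ) P (𝟙_ D)).symm
      (g ≫ (λ_ P).inv) := by
    intro g
    unfold cnm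
    rw [← hε]
    simp only [tensorRightHomEquiv, Equiv.coe_fn_symm_mk]
    monoidal
  constructor
  · intro f g h
    rw [key, key] at h
    exact (cancel_mono _).1 ((tensorRightHomEquiv _ _ _ _).symm.injective h)
  · intro g
    refine ⟨tensorRightHomEquiv N (Pᘁ) P (𝟙_ D) g ≫ (λ_ P).hom, ?_⟩
    rw [key, Category.assoc, Iso.hom_inv_id, Category.comp_id, Equiv.symm_apply_apply]

lemma nm_cnm [BraidedCategory D] [RightRigidCategory D] {P N : D} (f : P ⟶ N) (g : N ⟶ P) :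
    nm f ≫ cnm g = catTrace (f ≫ g) := by
  simp [nm, cnm, catTrace]

end Monoidal

section Unit

variable {D : Type u} [Category.{v} D] [Preadditive D] [MonoidalCategory D] [MonoidalPreadditive D]
  [RightRigidCategory D]

lemma nm_zero (P N : D) : nm (0 : P ⟶ N) = 0 := by simp [nm]

/-- nondegeneracy on the left -/
def NDL (N : D) : Prop := ∀ f : 𝟙_ D ⟶ N, (∀ g : N ⟶ 𝟙_ D, f ≫ g = 0) → f = 0

/-- nondegeneracy on the right -/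
def NDR (N : D) : Prop := ∀ g : N ⟶ 𝟙_ D, (∀ f : 𝟙_ D ⟶ N, f ≫ g = 0) → g = 0

lemma ndr_of_dual {N : D} (h : NDL (Nᘁ)) : NDR N := by
  intro g hg
  have h1 : nm g ≫ (λ_ (Nᘁ)).hom = 0 := by
    apply h
    intro t
    have h2 := hg (η_ N Nᘁ ≫ N ◁ t ≫ (ρ_ N).hom)
    have h3 : (nm g ≫ (λ_ (Nᘁ)).hom) ≫ t = (η_ N Nᘁ ≫ N ◁ t ≫ (ρ_ N).hom) ≫ g := by
      unfold nm
      have e1 : (N ◁ t ≫ (ρ_ N).hom) ≫ g = (g ▷ Nᘁ) ≫ (𝟙_ D ◁ t) ≫ (ρ_ (𝟙_ D)).hom := by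
        rw [Category.assoc, ← rightUnitor_naturality, whisker_exchange_assoc]
      have e2 : (λ_ (Nᘁ)).hom ≫ t = 𝟙_ D ◁ t ≫ (ρ_ (𝟙_ D)).hom := by
        rw [← unitors_equal, leftUnitor_naturality]
      rw [Category.assoc, Category.assoc, Category.assoc, e2, e1]
    rw [h3, h2]
  have h4 : nm g = 0 := (cancel_mono (λ_ (Nᘁ)).hom).1 (by rw [h1, zero_comp])
  exact (nm_bijective N (𝟙_ D)).1 (by rw [h4, nm_zero])

/-- the morphism `Nᘁ ⟶ 𝟙` defined by `f : 𝟙 ⟶ N`. -/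
noncomputable def tr1 {N : D} (f : 𝟙_ D ⟶ N) : Nᘁ ⟶ 𝟙_ D :=
  (ρ_ (Nᘁ)).inv ≫ Nᘁ ◁ f ≫ ε_ N Nᘁ

/-- the morphism `N ⟶ 𝟙` defined by `s : 𝟙 ⟶ Nᘁ`. -/
noncomputable def tr2 {N : D} (s : 𝟙_ D ⟶ Nᘁ) : N ⟶ 𝟙_ D :=
  (λ_ N).inv ≫ s ▷ N ≫ ε_ N Nᘁ

lemma comp_tr {N : D} (f : 𝟙_ D ⟶ N) (s : 𝟙_ D ⟶ Nᘁ) : f ≫ tr2 s = s ≫ tr1 f := by
  unfold tr1 tr2
  rw [leftUnitor_inv_naturality_assoc, whisker_exchange_assoc,
    rightUnitor_inv_naturality_assoc, unitors_inv_equal]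

lemma tr1_eq_zero {N : D} {f : 𝟙_ D ⟶ N} (h : tr1 f = 0) : f = 0 := by
  have h1 : Nᘁ ◁ f ≫ ε_ N Nᘁ = 0 := by
    apply (cancel_epi (ρ_ (Nᘁ)).inv).1
    rw [comp_zero]
    exact h
  have h2 : tensorLeftHomEquiv (𝟙_ D) N Nᘁ (𝟙_ D) (Nᘁ ◁ f ≫ ε_ N Nᘁ) = f ≫ (ρ_ N).inv := by
    simp only [tensorLeftHomEquiv, Equiv.coe_fn_mk]
    calc
      _ = 𝟙 _ ⊗≫ (η_ N Nᘁ ▷ 𝟙_ D ≫ (N ⊗ Nᘁ) ◁ f) ⊗≫ N ◁ ε_ N Nᘁ := by monoidal
      _ = f ⊗≫ (η_ N Nᘁ ▷ N ⊗≫ N ◁ ε_ N Nᘁ) := by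
        rw [← whisker_exchange]; monoidal
      _ = f ≫ (ρ_ N).inv := by
        rw [evaluation_coevaluation'']; monoidal
  rw [h1] at h2
  have h3 : tensorLeftHomEquiv (𝟙_ D) N Nᘁ (𝟙_ D) 0 = 0 := by
    simp [tensorLeftHomEquiv]
  rw [h3] at h2
  exact (cancel_mono (ρ_ N).inv).1 (by rw [← h2, zero_comp])

lemma ndl_of_dual {N : D} (h : NDR (Nᘁ)) : NDL N := by
  intro f hf
  apply tr1_eq_zero
  apply h
  intro s
  rw [← comp_tr]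
  exact hf _

end Unit

end Pool.Agent.H839.DM
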