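import Mathlib
import Pool.Agent.H839.DM.Dual

/-!
Perfectness of the pairings with the unit: nondegeneracy suffices, closure under triangles, and the
trace pairings.
-/

set_option autoImplicit false
set_option linter.unusedSectionVars false

open CategoryTheory CategoryTheory.Limits MonoidalCategory ExactPairing BraidedCategory Module
open CategoryTheory.Pretriangulated

namespace Pool.Agent.H839.DM

universe u v w x

variable {F : Type w} [Field F] {K : Type x} [Field K] [Algebra F K]
  {D : Type u} [Category.{v} D] [Preadditive D] [Linear F D]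
  [MonoidalCategory D] [BraidedCategory D] [RightRigidCategory D]
  (R : Realization F K D) (hunit : ∀ f : 𝟙_ D ⟶ 𝟙_ D, ∃ c : F, f = c • 𝟙 (𝟙_ D))

/-- the pairing with the unit with values in `F`. -/
noncomputable def Realization.up (N : D) : (𝟙_ D ⟶ N) →ₗ[F] (N ⟶ 𝟙_ D) →ₗ[F] F :=
  (Linear.comp (S := F) (𝟙_ D) N (𝟙_ D)).compr₂ (R.sc hunit).toLinearMap

lemma Realization.up_apply {N : D} (f : 𝟙_ D ⟶ N) (g : N ⟶ 𝟙_ D) :
    R.up hunit N f g = R.sc hunit (f ≫ g) := rfl

lemma Realization.up_smul {N : D} (f : 𝟙_ D ⟶ N) (g : N ⟶ 𝟙_ D) :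
    f ≫ g = R.up hunit N f g • 𝟙 (𝟙_ D) := by
  rw [R.up_apply]
  exact R.eq_sc hunit _

lemma bij_compr {V W X Y : Type*} [AddCommGroup V] [Module F V] [AddCommGroup W] [Module F W]
    [AddCommGroup X] [Module F X] [AddCommGroup Y] [Module F Y] (b : V →ₗ[F] W →ₗ[F] X)
    (e : X ≃ₗ[F] Y) :
    Function.Bijective (b.compr₂ e.toLinearMap) ↔ Function.Bijective b := by
  have h : (b.compr₂ e.toLinearMap : V → (W →ₗ[F] Y)) =
      (fun t : W →ₗ[F] X => e.toLinearMap ∘ₗ t) ∘ b := rfl
  rw [h]
  have he : Function.Bijective (fun t : W →ₗ[F] X => e.toLinearMap ∘ₗ t) := by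
    constructor
    · intro s t hst
      ext w
      have := congrArg (fun r => r w) hst
      simpa using this
    · intro t
      exact ⟨e.symm.toLinearMap ∘ₗ t, by ext w; simp⟩
  exact Function.Bijective.of_comp_iff' he _

lemma Realization.unitPerfect_iff (N : D) :
    UnitPerfect F N ↔ (R.up hunit N).IsPerfPair := by
  unfold UnitPerfect Realization.up
  constructor
  · rintro ⟨h1, h2⟩
    refine ⟨(bij_compr _ _).2 h1, ?_⟩
    have : ((Linear.comp (S := F) (𝟙_ D) N (𝟙_ D)).compr₂ (R.sc hunit).toLinearMap).flip =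
      (Linear.comp (S := F) (𝟙_ D) N (𝟙_ D)).flip.compr₂ (R.sc hunit).toLinearMap := rfl
    rw [this]
    exact (bij_compr _ _).2 h2
  · rintro ⟨h1, h2⟩
    refine ⟨(bij_compr _ _).1 h1, ?_⟩
    have : ((Linear.comp (S := F) (𝟙_ D) N (𝟙_ D)).compr₂ (R.sc hunit).toLinearMap).flip =
      (Linear.comp (S := F) (𝟙_ D) N (𝟙_ D)).flip.compr₂ (R.sc hunit).toLinearMap := rfl
    rw [this] at h2
    exact (bij_compr _ _).1 h2

lemma Realization.ev_zero (M N : D) : R.ev.map (0 : M ⟶ N) = 0 := by
  have := R.ev_smul (0 : F) (0 : M ⟶ N)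
  rwa [zero_smul, map_zero, zero_smul] at this

lemma Realization.od_zero (M N : D) : R.od.map (0 : M ⟶ N) = 0 := by
  have := R.od_smul (0 : F) (0 : M ⟶ N)
  rwa [zero_smul, map_zero, zero_smul] at this

include R in
/-- Dual families are bounded by the dimension of the realization. -/
lemma Realization.bound {N : D} (r : ℕ) (x : Fin r → (𝟙_ D ⟶ N)) (y : Fin r → (N ⟶ 𝟙_ D))
    (h : ∀ i j, x i ≫ y j = if i = j then 𝟙 (𝟙_ D) else 0) :
    r ≤ Module.finrank K (R.ev.obj N) := by
  have hfin := R.ev_finite N
  have hone := R.ev_unit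
  have hnt : Nontrivial (R.ev.obj (𝟙_ D)) := by
    apply Module.nontrivial_of_finrank_pos (R := K)
    rw [hone]; norm_num
  obtain ⟨e, he⟩ := exists_ne (0 : R.ev.obj (𝟙_ D))
  have hli : LinearIndependent K (fun i => (R.ev.map (x i)).hom e) := by
    rw [Fintype.linearIndependent_iff]
    intro c hc j
    have h1 := congrArg (fun t => (R.ev.map (y j)).hom t) hc
    simp only [map_sum, map_smul, map_zero] at h1
    have h2 : ∀ i, (R.ev.map (y j)).hom ((R.ev.map (x i)).hom e) = if i = j then e else 0 := by
      intro i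
      have h3 : (R.ev.map (y j)).hom ((R.ev.map (x i)).hom e) = (R.ev.map (x i ≫ y j)).hom e := by
        rw [R.ev.map_comp]; rfl
      rw [h3, h i j]
      split_ifs
      · rw [R.ev.map_id]; rfl
      · rw [R.ev_zero]; rfl
    simp only [h2, smul_ite, smul_zero, Finset.sum_ite_eq', Finset.mem_univ, if_true] at h1
    exact (smul_eq_zero.1 h1).resolve_right he
  have := hli.fintype_card_le_finrank
  simpa using this

/-- Nondegenerate implies perfect. -/
lemma Realization.isPerfPair_iff (N : D) :
    (R.up hunit N).IsPerfPair ↔ NDL N ∧ NDR N := by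
  constructor
  · intro h
    constructor
    · intro f hf
      apply h.bijective_left.1
      ext g
      rw [R.up_apply, hf g, map_zero, map_zero]
      rfl
    · intro g hg
      apply h.bijective_right.1
      ext f
      rw [map_zero]
      change R.up hunit N f g = 0
      rw [R.up_apply, hg f, map_zero]
  · rintro ⟨h1, h2⟩
    refine isPerfPair_of_bound _ ?_ ?_ (Module.finrank K (R.ev.obj N)) ?_
    · rw [← LinearMap.ker_eq_bot, LinearMap.ker_eq_bot']
      intro f hf
      apply h1
      intro g
      rw [R.up_smul hunit f g, hf]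
      simp
    · rw [← LinearMap.ker_eq_bot, LinearMap.ker_eq_bot']
      intro g hg
      apply h2
      intro f
      have : R.up hunit N f g = 0 := by
        have := congrArg (fun t => t f) hg
        simpa using this
      rw [R.up_smul hunit f g, this, zero_smul]
    · intro r x y hxy
      refine R.bound r x y (fun i j => ?_)
      rw [R.up_smul hunit (x i) (y j), hxy i j]
      split_ifs <;> simp

include R hunit in
lemma Realization.unitPerfect_iff' (N : D) : UnitPerfect F N ↔ NDL N ∧ NDR N := by
  rw [R.unitPerfect_iff hunit, R.isPerfPair_iff]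

end Pool.Agent.H839.DM
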