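import Mathlib
import Pool.Agent.H839.DM.Perfect

/-!
The objects all of whose shifts have perfect pairings with the unit are a triangulated subcategory
closed under retracts.
-/

set_option autoImplicit false
set_option linter.unusedSectionVars false

open CategoryTheory CategoryTheory.Limits MonoidalCategory ExactPairing BraidedCategory Module
open CategoryTheory.Pretriangulated ZeroObject

namespace Pool.Agent.H839.DM

universe u v w x

variable {F : Type w} [Field F] {K : Type x} [Field K] [Algebra F K]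
  {D : Type u} [Category.{v} D] [Preadditive D] [Linear F D]
  [MonoidalCategory D] [BraidedCategory D] [RightRigidCategory D]
  (R : Realization F K D) (hunit : ∀ f : 𝟙_ D ⟶ 𝟙_ D, ∃ c : F, f = c • 𝟙 (𝟙_ D))

lemma NDL.retract {M N : D} (i : M ⟶ N) (r : N ⟶ M) (h : i ≫ r = 𝟙 M) (hN : NDL N) : NDL M := by
  intro f hf
  have : f ≫ i = 0 := hN _ (fun g => by rw [Category.assoc]; exact hf _)
  calc f = (f ≫ i) ≫ r := by rw [Category.assoc, h, Category.comp_id]
    _ = 0 := by rw [this, zero_comp]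

lemma NDR.retract {M N : D} (i : M ⟶ N) (r : N ⟶ M) (h : i ≫ r = 𝟙 M) (hN : NDR N) : NDR M := by
  intro g hg
  have : r ≫ g = 0 := hN _ (fun f => by rw [← Category.assoc]; exact hg _)
  calc g = i ≫ r ≫ g := by rw [← Category.assoc, h, Category.id_comp]
    _ = 0 := by rw [this, comp_zero]

/-- both nondegeneracy conditions -/
def ND (N : D) : Prop := NDL N ∧ NDR N

lemma ND.retract {M N : D} (i : M ⟶ N) (r : N ⟶ M) (h : i ≫ r = 𝟙 M) (hN : ND N) : ND M :=
  ⟨hN.1.retract i r h, hN.2.retract i r h⟩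

lemma ND.of_iso {M N : D} (e : M ≅ N) (hN : ND N) : ND M := hN.retract e.hom e.inv e.hom_inv_id

variable [HasZeroObject D] [HasShift D ℤ] [∀ n : ℤ, (shiftFunctor D n).Additive]
  [Pretriangulated D]

include R hunit in
lemma ND.triangle (T : Triangle D) (hT : T ∈ distTriang D)
    (h₀ : ND (T.obj₃⟦(-1 : ℤ)⟧)) (h₁ : ND T.obj₁) (h₃ : ND T.obj₃) (h₄ : ND (T.obj₁⟦(1 : ℤ)⟧)) :
    ND T.obj₂ := by
  rw [ND, ← R.isPerfPair_iff hunit] at h₀ h₁ h₃ h₄ ⊢
  have hT' := inv_rot_of_distTriang _ hT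
  let d : T.obj₃⟦(-1 : ℤ)⟧ ⟶ T.obj₁ := T.invRotate.mor₁
  have exd : ∀ f : 𝟙_ D ⟶ T.obj₁, f ≫ T.mor₁ = 0 → ∃ g, f = g ≫ d := fun f hf =>
    T.invRotate.coyoneda_exact₂ hT' f hf
  have exd' : ∀ f : T.obj₁ ⟶ 𝟙_ D, d ≫ f = 0 → ∃ g, f = T.mor₁ ≫ g := fun f hf =>
    T.invRotate.yoneda_exact₂ hT' f hf
  have zd : d ≫ T.mor₁ = 0 := comp_distTriang_mor_zero₁₂ _ hT'
  have z12 := comp_distTriang_mor_zero₁₂ _ hT
  have z23 := comp_distTriang_mor_zero₂₃ _ hT
  refine isPerfPair_five (f₁ := Linear.rightComp F (𝟙_ D) d) (f₂ := Linear.rightComp F (𝟙_ D) T.mor₁)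
    (f₃ := Linear.rightComp F (𝟙_ D) T.mor₂) (f₄ := Linear.rightComp F (𝟙_ D) T.mor₃)
    (g₁ := Linear.leftComp F (𝟙_ D) d) (g₂ := Linear.leftComp F (𝟙_ D) T.mor₁)
    (g₃ := Linear.leftComp F (𝟙_ D) T.mor₂) (g₄ := Linear.leftComp F (𝟙_ D) T.mor₃)
    ?_ ?_ ?_ ?_ ?_ ?_ (R.up hunit _) (R.up hunit _) (R.up hunit _) (R.up hunit _) (R.up hunit _)
    ?_ ?_ ?_ ?_ h₀ h₁ h₃ h₄
  · intro f
    constructor
    · intro hf
      obtain ⟨g, hg⟩ := exd f hf
      exact ⟨g, hg.symm⟩
    · rintro ⟨g, rfl⟩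
      simp [zd]
  · intro f
    constructor
    · intro hf
      obtain ⟨g, hg⟩ := T.coyoneda_exact₂ hT f hf
      exact ⟨g, hg.symm⟩
    · rintro ⟨g, rfl⟩
      simp [z12]
  · intro f
    constructor
    · intro hf
      obtain ⟨g, hg⟩ := T.coyoneda_exact₃ hT f hf
      exact ⟨g, hg.symm⟩
    · rintro ⟨g, rfl⟩
      simp [z23]
  · intro f
    constructor
    · intro hf
      obtain ⟨g, hg⟩ := exd' f hf
      exact ⟨g, hg.symm⟩
    · rintro ⟨g, rfl⟩
      simp only [Linear.leftComp_apply]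
      rw [← Category.assoc, zd, zero_comp]
  · intro f
    constructor
    · intro hf
      obtain ⟨g, hg⟩ := T.yoneda_exact₂ hT f hf
      exact ⟨g, hg.symm⟩
    · rintro ⟨g, rfl⟩
      simp only [Linear.leftComp_apply]
      rw [← Category.assoc, z12, zero_comp]
  · intro f
    constructor
    · intro hf
      obtain ⟨g, hg⟩ := T.yoneda_exact₃ hT f hf
      exact ⟨g, hg.symm⟩
    · rintro ⟨g, rfl⟩
      simp only [Linear.leftComp_apply]
      rw [← Category.assoc, z23, zero_comp]
  all_goals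
    intro f g
    simp only [R.up_apply, Linear.leftComp_apply, Linear.rightComp_apply, Category.assoc]

/-- The objects all of whose shifts have perfect pairings with the unit. -/
def NDS : ObjectProperty D := fun N => ∀ n : ℤ, ND (N⟦n⟧)

instance : (NDS : ObjectProperty D).IsStableUnderRetracts where
  of_retract r h n := (h n).retract ((shiftFunctor D n).map r.i) ((shiftFunctor D n).map r.r) (by
    rw [← Functor.map_comp, r.retract, CategoryTheory.Functor.map_id])

include R hunit in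
lemma nds_triangulated : (NDS : ObjectProperty D).IsTriangulated := by
  have h0 : (NDS : ObjectProperty D).ContainsZero := by
    refine ⟨⟨0, isZero_zero D, fun n => ?_⟩⟩
    have hz : IsZero ((0 : D)⟦n⟧) := (shiftFunctor D n).map_isZero (isZero_zero D)
    exact ⟨fun f _ => hz.eq_of_tgt _ _, fun g _ => hz.eq_of_src _ _⟩
  have hs : (NDS : ObjectProperty D).IsStableUnderShift ℤ := by
    refine ⟨fun a => ObjectProperty.IsStableUnderShiftBy.mk (fun X hX => ?_)⟩
    rw [ObjectProperty.prop_shift_iff]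
    intro n
    exact ND.of_iso ((shiftFunctorAdd D a n).symm.app X) (hX (a + n))
  have h2 : (NDS : ObjectProperty D).IsTriangulatedClosed₂ := by
    apply ObjectProperty.IsTriangulatedClosed₂.mk'
    intro T hT h₁ h₃ n
    have hTn := Triangle.shift_distinguished T hT n
    refine ND.triangle R hunit ((Triangle.shiftFunctor D n).obj T) hTn ?_ (h₁ n) (h₃ n) ?_
    · exact ND.of_iso ((shiftFunctorAdd D n (-1)).symm.app T.obj₃) (h₃ (n + -1))
    · exact ND.of_iso ((shiftFunctorAdd D n 1).symm.app T.obj₁) (h₁ (n + 1))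
  exact {}

include R hunit in
/-- If `S` generates `D` and the pairings are nondegenerate for all shifts of the objects of `S`, they
are for all objects. -/
lemma nd_of_generator (S : ObjectProperty D) (hS : S.IsClassicalTriangulatedGenerator)
    (h : ∀ M, S M → ∀ n : ℤ, ND (M⟦n⟧)) (N : D) : ND N := by
  have := nds_triangulated R hunit
  have h1 : S.triangEnvelope ≤ (NDS : ObjectProperty D) :=
    (ObjectProperty.triangEnvelope_le_iff S).2 h
  have h2 : S.triangEnvelope N := by
    rw [(ObjectProperty.isClassicalTriangulatedGenerator_iff S).1 hS]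
    trivial
  exact ND.of_iso ((shiftFunctorZero D ℤ).symm.app N) (h1 N h2 0)

end Pool.Agent.H839.DM
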