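import Mathlib
import Pool.Agent.H839.DM.Close

/-!
Trace pairings, semisimplicity and quasi-inverses.
-/

set_option autoImplicit false
set_option linter.unusedSectionVars false

open CategoryTheory CategoryTheory.Limits MonoidalCategory ExactPairing BraidedCategory Module
open CategoryTheory.Pretriangulated ZeroObject

namespace Pool.Agent.H839.DM

universe u v w x

section Algebra

lemma regular_of_semisimple {A : Type*} [Ring A] [IsSemisimpleRing A] (a : A) :
    ∃ b : A, a * b * a = a := by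
  obtain ⟨e, he, hI⟩ := IsSemisimpleRing.ideal_eq_span_idempotent (Ideal.span {a})
  have ha : a ∈ Ideal.span {e} := hI ▸ Ideal.mem_span_singleton_self a
  have he' : e ∈ Ideal.span {a} := hI.symm ▸ Ideal.mem_span_singleton_self e
  obtain ⟨r, hr⟩ := Submodule.mem_span_singleton.1 ha
  obtain ⟨b, hb⟩ := Submodule.mem_span_singleton.1 he'
  refine ⟨b, ?_⟩
  rw [smul_eq_mul] at hr hb
  rw [mul_assoc, hb, ← hr, mul_assoc, he.eq]

lemma semisimple_of_trace {F : Type*} [Field F] {A : Type*} [Ring A] [Algebra F A]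
    [Module.Finite F A] (t : A →ₗ[F] F) (hn : ∀ a : A, IsNilpotent a → t a = 0)
    (hnd : ∀ a : A, (∀ b : A, t (b * a) = 0) → a = 0) : IsSemisimpleRing A := by
  have : IsArtinianRing A := IsArtinianRing.of_finite F A
  rw [IsArtinianRing.isSemisimpleRing_iff_jacobson, eq_bot_iff]
  intro a ha
  rw [Submodule.mem_bot]
  apply hnd
  intro b
  apply hn
  have hab : b * a ∈ Ring.jacobson A := Ideal.mul_mem_left _ b ha
  obtain ⟨n, hn⟩ := (IsSemiprimaryRing.isNilpotent : IsNilpotent (Ring.jacobson A))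
  refine ⟨n, ?_⟩
  have h1 : (b * a) ^ n ∈ (Ring.jacobson A) ^ n := Ideal.pow_mem_pow hab n
  rw [hn] at h1
  simpa using h1

end Algebra

variable {F : Type w} [Field F] {K : Type x} [Field K] [Algebra F K]
  {D : Type u} [Category.{v} D] [Preadditive D] [Linear F D]
  [MonoidalCategory D] [MonoidalPreadditive D] [MonoidalLinear F D]
  [BraidedCategory D] [RightRigidCategory D]
  (R : Realization F K D) (hunit : ∀ f : 𝟙_ D ⟶ 𝟙_ D, ∃ c : F, f = c • 𝟙 (𝟙_ D))

/-- `nm` as a linear equivalence -/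
noncomputable def nmL (P N : D) : (P ⟶ N) ≃ₗ[F] (𝟙_ D ⟶ N ⊗ Pᘁ) :=
  LinearEquiv.ofBijective
    { toFun := nm
      map_add' := fun f g => by simp [nm]
      map_smul' := fun c f => by simp [nm] } (nm_bijective P N)

/-- `cnm` as a linear equivalence -/
noncomputable def cnmL (P N : D) : (N ⟶ P) ≃ₗ[F] (N ⊗ Pᘁ ⟶ 𝟙_ D) :=
  LinearEquiv.ofBijective
    { toFun := cnm
      map_add' := fun f g => by simp [cnm]
      map_smul' := fun c f => by simp [cnm] } (cnm_bijective P N)

lemma tracePairing_apply {P N : D} (f : P ⟶ N) (g : N ⟶ P) :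
    tracePairing F P N f g = catTrace (f ≫ g) := rfl

lemma tracePairing_eq (P N : D) :
    tracePairing F P N = (Linear.comp (S := F) (𝟙_ D) (N ⊗ Pᘁ) (𝟙_ D)).compl₁₂
      (nmL P N).toLinearMap (cnmL P N).toLinearMap := by
  ext f g
  rw [tracePairing_apply, ← nm_cnm]
  rfl

lemma bij_compl {V W V' W' X : Type*} [AddCommGroup V] [Module F V] [AddCommGroup W] [Module F W]
    [AddCommGroup V'] [Module F V'] [AddCommGroup W'] [Module F W']
    [AddCommGroup X] [Module F X] (b : V →ₗ[F] W →ₗ[F] X) (d : V' ≃ₗ[F] V) (e : W' ≃ₗ[F] W) :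
    Function.Bijective (b.compl₁₂ d.toLinearMap e.toLinearMap) ↔ Function.Bijective b := by
  have h : (b.compl₁₂ d.toLinearMap e.toLinearMap : V' → (W' →ₗ[F] X)) =
      (fun t : W →ₗ[F] X => t ∘ₗ e.toLinearMap) ∘ b ∘ d := rfl
  rw [h]
  have he : Function.Bijective (fun t : W →ₗ[F] X => t ∘ₗ e.toLinearMap) := by
    constructor
    · intro s t hst
      ext w
      have := congrArg (fun r => r (e.symm w)) hst
      simpa using this
    · intro t
      exact ⟨t ∘ₗ e.symm.toLinearMap, by ext w; simp⟩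
  rw [Function.Bijective.of_comp_iff' he]
  exact Function.Bijective.of_comp_iff _ d.bijective

lemma tracePerfect_iff (P N : D) : TracePerfect F P N ↔ UnitPerfect F (N ⊗ Pᘁ) := by
  unfold TracePerfect UnitPerfect
  rw [tracePairing_eq, bij_compl]
  have : ((Linear.comp (S := F) (𝟙_ D) (N ⊗ Pᘁ) (𝟙_ D)).compl₁₂
      (nmL P N).toLinearMap (cnmL P N).toLinearMap).flip =
      (Linear.comp (S := F) (𝟙_ D) (N ⊗ Pᘁ) (𝟙_ D)).flip.compl₁₂
      (cnmL P N).toLinearMap (nmL P N).toLinearMap := rfl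
  rw [this, bij_compl]

include R hunit in
lemma Realization.finite_hom (h : ∀ N : D, ND N) (P N : D) : Module.Finite F (P ⟶ N) := by
  have h1 := (R.isPerfPair_iff hunit (N ⊗ Pᘁ)).2 (h _)
  have h2 := (finite_of_bound (R.up hunit (N ⊗ Pᘁ)) h1.bijective_left.1
    (Module.finrank K (R.ev.obj (N ⊗ Pᘁ))) (fun r x y hxy => R.bound r x y (fun i j => by
      rw [R.up_smul hunit (x i) (y j), hxy i j]
      split_ifs <;> simp))).1
  exact Module.Finite.equiv (nmL P N).symm

include R hunit in
lemma Realization.trace_nondeg (h : ∀ N : D, ND N) {P N : D} (f : P ⟶ N)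
    (hf : ∀ g : N ⟶ P, catTrace (f ≫ g) = 0) : f = 0 := by
  have h1 := (R.unitPerfect_iff' hunit (N ⊗ Pᘁ)).2 (h _)
  rw [← tracePerfect_iff] at h1
  apply h1.1.1
  ext g
  rw [tracePairing_apply, hf g, map_zero]
  rfl

include R hunit in
lemma Realization.trace_nilpotent [CharZero F] {P : D} (f : End P) (hf : IsNilpotent f) :
    catTrace (f : P ⟶ P) = 0 := by
  obtain ⟨c, hc⟩ := hunit (catTrace (f : P ⟶ P))
  have h1 := R.lefschetz (f : P ⟶ P) c hc
  have hpow : ∀ n : ℕ, ((R.ev.map (f : P ⟶ P)).hom ^ n) = (R.ev.map ((f ^ n : End P) : P ⟶ P)).hom ∧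
      ((R.od.map (f : P ⟶ P)).hom ^ n) = (R.od.map ((f ^ n : End P) : P ⟶ P)).hom := by
    intro n
    induction n with
    | zero =>
      constructor
      · rw [pow_zero, pow_zero]
        change (1 : Module.End K (R.ev.obj P)) = (R.ev.map (𝟙 P)).hom
        rw [R.ev.map_id]; rfl
      · rw [pow_zero, pow_zero]
        change (1 : Module.End K (R.od.obj P)) = (R.od.map (𝟙 P)).hom
        rw [R.od.map_id]; rfl
    | succ n ih =>
      constructor
      · rw [pow_succ, ih.1, pow_succ]
        change _ = (R.ev.map (f ≫ (f ^ n : End P))).hom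
        rw [R.ev.map_comp]; rfl
      · rw [pow_succ, ih.2, pow_succ]
        change _ = (R.od.map (f ≫ (f ^ n : End P))).hom
        rw [R.od.map_comp]; rfl
  obtain ⟨n, hn⟩ := hf
  have he : IsNilpotent (R.ev.map (f : P ⟶ P)).hom := by
    refine ⟨n, ?_⟩
    rw [(hpow n).1, hn]
    change (R.ev.map (0 : P ⟶ P)).hom = 0
    rw [R.ev_zero]; rfl
  have ho : IsNilpotent (R.od.map (f : P ⟶ P)).hom := by
    refine ⟨n, ?_⟩
    rw [(hpow n).2, hn]
    change (R.od.map (0 : P ⟶ P)).hom = 0
    rw [R.od_zero]; rfl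
  have := R.ev_finite P
  have := R.od_finite P
  rw [(LinearMap.isNilpotent_trace_of_isNilpotent he).eq_zero,
    (LinearMap.isNilpotent_trace_of_isNilpotent ho).eq_zero, sub_zero] at h1
  have hc0 : c = 0 := (map_eq_zero _).1 h1
  rw [hc, hc0, zero_smul]

include R hunit in
lemma Realization.semisimple [CharZero F] (h : ∀ N : D, ND N) (P : D) :
    IsSemisimpleRing (End P) := by
  have hfin : Module.Finite F (End P) := R.finite_hom hunit h P P
  let t : End P →ₗ[F] F := (R.sc hunit).toLinearMap ∘ₗ (traceMap F P)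
  refine semisimple_of_trace t ?_ ?_
  · intro a ha
    change R.sc hunit (catTrace (a : P ⟶ P)) = 0
    rw [R.trace_nilpotent hunit a ha, map_zero]
  · intro a ha
    apply R.trace_nondeg hunit h (P := P) (N := P) (f := a)
    intro g
    have h1 : R.sc hunit (catTrace ((a : P ⟶ P) ≫ g)) = 0 := ha g
    exact (R.sc hunit).map_eq_zero_iff.1 h1

end Pool.Agent.H839.DM
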