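import Mathlib
import Pool.Agent.H839.DM.Semi

/-!
Quasi-inverses and abelian categories.
-/

set_option autoImplicit false
set_option linter.unusedSectionVars false

open CategoryTheory CategoryTheory.Limits MonoidalCategory ExactPairing BraidedCategory Module
open CategoryTheory.Pretriangulated ZeroObject

namespace Pool.Agent.H839.DM

universe u v w x

lemma factor_of_abelian {D : Type u} [Category.{v} D] (h : Nonempty (Abelian D)) {P N : D}
    (f : P ⟶ N) : ∃ (I : D) (p : P ⟶ I) (i : I ⟶ N), Epi p ∧ Mono i ∧ p ≫ i = f := by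
  obtain ⟨_⟩ := h
  exact ⟨_, Abelian.factorThruImage f, Abelian.image.ι f, inferInstance, inferInstance,
    Abelian.image.fac f⟩

section Regular

variable {D : Type u} [Category.{v} D] [Preadditive D]

/-- Every morphism `f` has a quasi-inverse `g`: `f ≫ g ≫ f = f`. -/
def QuasiInverses (D : Type u) [Category.{v} D] : Prop :=
  ∀ ⦃P N : D⦄ (f : P ⟶ N), ∃ g : N ⟶ P, f ≫ g ≫ f = f

lemma quasi_of_semisimple [HasBinaryBiproducts D] (h : ∀ P : D, IsSemisimpleRing (End P)) :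
    QuasiInverses D := by
  intro P N f
  have := h (P ⊞ N)
  let a : End (P ⊞ N) := (biprod.fst ≫ f ≫ biprod.inr : P ⊞ N ⟶ P ⊞ N)
  obtain ⟨b, hb⟩ := regular_of_semisimple a
  refine ⟨biprod.inr ≫ (b : P ⊞ N ⟶ P ⊞ N) ≫ biprod.fst, ?_⟩
  have h1 : (a : P ⊞ N ⟶ P ⊞ N) ≫ (b : P ⊞ N ⟶ P ⊞ N) ≫ (a : P ⊞ N ⟶ P ⊞ N) = a := hb
  have h2 := congrArg (fun t => biprod.inl ≫ t ≫ biprod.snd) h1
  simpa [a] using h2

variable (h : QuasiInverses D)

include h in
lemma exists_kernel_of_quasi [IsIdempotentComplete D] {P N : D} (f : P ⟶ N) :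
    ∃ (Y : D) (i : Y ⟶ P) (w : i ≫ f = 0), Nonempty (IsLimit (KernelFork.ofι i w)) := by
  obtain ⟨g, hg⟩ := h f
  have hidem : (𝟙 P - f ≫ g) ≫ (𝟙 P - f ≫ g) = 𝟙 P - f ≫ g := by
    simp only [Preadditive.sub_comp, Preadditive.comp_sub, Category.id_comp, Category.comp_id,
      Category.assoc]
    rw [← Category.assoc g f g, ← Category.assoc f (g ≫ f) g, hg, sub_self, sub_zero]
  obtain ⟨Y, i, r, hir, hri⟩ := IsIdempotentComplete.idempotents_split P _ hidem
  have hi : i ≫ f = 0 := by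
    have h1 : i ≫ (f ≫ g) = 0 := by
      have h2 : i = i ≫ (𝟙 P - f ≫ g) := by
        rw [← hri, ← Category.assoc, hir, Category.id_comp]
      have h3 : i ≫ (𝟙 P - f ≫ g) = i - i ≫ f ≫ g := by
        rw [Preadditive.comp_sub, Category.comp_id]
      rw [h3] at h2
      have h4 : i - i ≫ f ≫ g + i ≫ f ≫ g = i + i ≫ f ≫ g := by rw [← h2]
      rw [sub_add_cancel] at h4
      simpa using h4
    calc i ≫ f = i ≫ f ≫ g ≫ f := by rw [hg]
      _ = (i ≫ (f ≫ g)) ≫ f := by simp only [Category.assoc]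
      _ = 0 := by rw [h1, zero_comp]
  have : IsSplitMono i := ⟨⟨r, hir⟩⟩
  refine ⟨Y, i, hi, ⟨KernelFork.IsLimit.ofι' i hi (fun {A} k hk => ⟨k ≫ r, ?_⟩)⟩⟩
  rw [Category.assoc, hri, Preadditive.comp_sub, Category.comp_id, ← Category.assoc, hk, zero_comp,
    sub_zero]

include h in
lemma exists_cokernel_of_quasi [IsIdempotentComplete D] {P N : D} (f : P ⟶ N) :
    ∃ (Y : D) (p : N ⟶ Y) (w : f ≫ p = 0), Nonempty (IsColimit (CokernelCofork.ofπ p w)) := by
  obtain ⟨g, hg⟩ := h f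
  have hidem : (𝟙 N - g ≫ f) ≫ (𝟙 N - g ≫ f) = 𝟙 N - g ≫ f := by
    simp only [Preadditive.sub_comp, Preadditive.comp_sub, Category.id_comp, Category.comp_id,
      Category.assoc]
    rw [hg, sub_self, sub_zero]
  obtain ⟨Y, i, r, hir, hri⟩ := IsIdempotentComplete.idempotents_split N _ hidem
  have hr : f ≫ r = 0 := by
    have h1 : (g ≫ f) ≫ r = 0 := by
      have h2 : r = (𝟙 N - g ≫ f) ≫ r := by
        rw [← hri, Category.assoc, hir, Category.comp_id]
      have h3 : (𝟙 N - g ≫ f) ≫ r = r - (g ≫ f) ≫ r := by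
        rw [Preadditive.sub_comp, Category.id_comp]
      rw [h3] at h2
      have h4 : r - (g ≫ f) ≫ r + (g ≫ f) ≫ r = r + (g ≫ f) ≫ r := by rw [← h2]
      rw [sub_add_cancel] at h4
      simpa using h4
    calc f ≫ r = (f ≫ g ≫ f) ≫ r := by rw [hg]
      _ = f ≫ (g ≫ f) ≫ r := by rw [Category.assoc]
      _ = 0 := by rw [h1, comp_zero]
  have : IsSplitEpi r := ⟨⟨i, hir⟩⟩
  refine ⟨Y, r, hr, ⟨CokernelCofork.IsColimit.ofπ' r hr (fun {A} k hk => ⟨i ≫ k, ?_⟩)⟩⟩
  rw [← Category.assoc, hri, Preadditive.sub_comp, Category.id_comp, Category.assoc, hk, comp_zero,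
    sub_zero]

include h in
/-- An idempotent complete additive category with quasi-inverses is abelian. -/
lemma abelian_of_quasi [IsIdempotentComplete D] [HasFiniteProducts D] : Nonempty (Abelian D) := by
  have hk : HasKernels D := ⟨fun f => by
    obtain ⟨Y, i, w, ⟨hl⟩⟩ := exists_kernel_of_quasi h f
    exact ⟨⟨⟨_, hl⟩⟩⟩⟩
  have hc : HasCokernels D := ⟨fun f => by
    obtain ⟨Y, i, w, ⟨hl⟩⟩ := exists_cokernel_of_quasi h f
    exact ⟨⟨⟨_, hl⟩⟩⟩⟩
  have hm : IsNormalMonoCategory D := ⟨fun {P N} f _ => by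
    obtain ⟨g, hg⟩ := h f
    have h1 : f ≫ g = 𝟙 P := by
      apply (cancel_mono f).1
      rw [Category.assoc, hg, Category.id_comp]
    refine ⟨⟨N, 𝟙 N - g ≫ f, ?_, ?_⟩⟩
    · rw [Preadditive.comp_sub, Category.comp_id, hg, sub_self]
    · refine KernelFork.IsLimit.ofι' f _ (fun {A} k hk => ⟨k ≫ g, ?_⟩)
      rw [Preadditive.comp_sub, Category.comp_id, sub_eq_zero] at hk
      rw [Category.assoc, ← hk]⟩
  have he : IsNormalEpiCategory D := ⟨fun {P N} f _ => by
    obtain ⟨g, hg⟩ := h f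
    have h1 : g ≫ f = 𝟙 N := by
      apply (cancel_epi f).1
      rw [hg, Category.comp_id]
    refine ⟨⟨P, 𝟙 P - f ≫ g, ?_, ?_⟩⟩
    · rw [Preadditive.sub_comp, Category.id_comp, Category.assoc, h1, Category.comp_id, sub_self]
    · refine CokernelCofork.IsColimit.ofπ' f _ (fun {A} k hk => ⟨g ≫ k, ?_⟩)
      rw [Preadditive.sub_comp, Category.id_comp, sub_eq_zero] at hk
      rw [← Category.assoc, ← hk]⟩
  exact ⟨{}⟩

end Regular

section Triangulated

variable {D : Type u} [Category.{v} D] [Preadditive D] [HasZeroObject D] [HasShift D ℤ]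
  [∀ n : ℤ, (shiftFunctor D n).Additive] [Pretriangulated D]

/-- A pretriangulated abelian category has quasi-inverses. -/
lemma quasi_of_abelian (h : Nonempty (Abelian D)) : QuasiInverses D := by
  intro P N f
  obtain ⟨I, p, i, hp, hi, hpi⟩ := factor_of_abelian h f
  obtain ⟨s⟩ := (isSplitEpi_of_epi p).exists_splitEpi
  obtain ⟨r⟩ := (isSplitMono_of_mono i).exists_splitMono
  refine ⟨r.retraction ≫ s.section_, ?_⟩
  rw [← hpi]
  simp

end Triangulated

end Pool.Agent.H839.DM
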