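import Mathlib
import Pool.Agent.H839.DM.Abel

/-!
The equivalences.
-/

set_option autoImplicit false
set_option linter.unusedSectionVars false

open CategoryTheory CategoryTheory.Limits MonoidalCategory ExactPairing BraidedCategory Module
open CategoryTheory.Pretriangulated ZeroObject

namespace Pool.Agent.H839.DM

universe u v w x

variable {F : Type w} [Field F] {K : Type x} [Field K] [Algebra F K]
  {D : Type u} [Category.{v} D] [Preadditive D] [Linear F D]
  [MonoidalCategory D] [MonoidalPreadditive D] [MonoidalLinear F D]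
  [BraidedCategory D] [RightRigidCategory D]
  (R : Realization F K D) (hunit : ∀ f : 𝟙_ D ⟶ 𝟙_ D, ∃ c : F, f = c • 𝟙 (𝟙_ D))

/-- The realization is faithful. -/
def Realization.Faithful : Prop :=
  ∀ ⦃P N : D⦄ (f : P ⟶ N), R.ev.map f = 0 → R.od.map f = 0 → f = 0

/-- The realization maps families of morphisms which are linearly independent over `F` to families
which are linearly independent over `K`, that is, the maps
`K ⊗ Hom(P, N) → Hom(ev P, ev N) × Hom(od P, od N)` are injective. -/
def Realization.KFaithful : Prop :=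
  ∀ ⦃P N : D⦄ (n : ℕ) (f : Fin n → (P ⟶ N)), LinearIndependent F f →
    LinearIndependent K (fun i => (R.ev.map (f i), R.od.map (f i)))

lemma Realization.KFaithful.faithful (h : R.KFaithful) : R.Faithful := by
  intro P N f h1 h2
  by_contra hne
  have hli : LinearIndependent F (fun _ : Fin 1 => f) :=
    linearIndependent_unique_iff.2 hne
  have h3 := h 1 (fun _ => f) hli
  have h4 := linearIndependent_unique_iff.1 h3
  exact h4 (by rw [h1, h2]; rfl)

/-- the functional `t ↦ Tr (g ∘ t)` -/
noncomputable def trFun {V W : Type*} [AddCommGroup V] [Module K V] [AddCommGroup W] [Module K W]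
    (g : W →ₗ[K] V) : (V →ₗ[K] W) →ₗ[K] K where
  toFun t := LinearMap.trace K V (g ∘ₗ t)
  map_add' s t := by rw [LinearMap.comp_add, map_add]
  map_smul' c t := by rw [LinearMap.comp_smul, map_smul]; rfl

include hunit in
lemma Realization.kfaithful_of_nd (h : ∀ N : D, ND N) : R.KFaithful := by
  intro P N n f hf
  let b : (P ⟶ N) →ₗ[F] (N ⟶ P) →ₗ[F] F := (tracePairing F P N).compr₂ (R.sc hunit).toLinearMap
  have hb : Function.Injective b := by
    rw [← LinearMap.ker_eq_bot, LinearMap.ker_eq_bot']
    intro t ht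
    apply R.trace_nondeg hunit h
    intro g
    have h1 : R.sc hunit (catTrace (t ≫ g)) = 0 := by
      have h2 : b t g = 0 := by rw [ht]; rfl
      exact h2
    exact (R.sc hunit).map_eq_zero_iff.1 h1
  obtain ⟨g, hg⟩ := exists_dual b hb f hf
  have htr : ∀ i j, catTrace (f i ≫ g j) = (if i = j then (1 : F) else 0) • 𝟙 (𝟙_ D) := by
    intro i j
    rw [R.eq_sc hunit (catTrace (f i ≫ g j))]
    congr 1
    exact hg i j
  rw [Fintype.linearIndependent_iff]
  intro c hc j
  have he := R.ev_finite P
  have ho := R.od_finite P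
  have h1 : ∑ i, c i • (R.ev.map (f i)).hom = 0 := by
    have h2 := congrArg (fun t => (Prod.fst t).hom) hc
    simpa [Prod.fst_sum, ModuleCat.hom_sum] using h2
  have h1' : ∑ i, c i • (R.od.map (f i)).hom = 0 := by
    have h2 := congrArg (fun t => (Prod.snd t).hom) hc
    simpa [Prod.snd_sum, ModuleCat.hom_sum] using h2
  have h3 : ∑ i, c i * LinearMap.trace K _ ((R.ev.map (g j)).hom ∘ₗ (R.ev.map (f i)).hom) = 0 := by
    have h2 := congrArg (trFun (R.ev.map (g j)).hom) h1
    rw [map_sum, map_zero] at h2
    simp only [map_smul, smul_eq_mul] at h2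
    exact h2
  have h3' : ∑ i, c i * LinearMap.trace K _ ((R.od.map (g j)).hom ∘ₗ (R.od.map (f i)).hom) = 0 := by
    have h2 := congrArg (trFun (R.od.map (g j)).hom) h1'
    rw [map_sum, map_zero] at h2
    simp only [map_smul, smul_eq_mul] at h2
    exact h2
  have h4 : ∀ i, algebraMap F K (if i = j then (1 : F) else 0) =
      LinearMap.trace K _ ((R.ev.map (g j)).hom ∘ₗ (R.ev.map (f i)).hom) -
      LinearMap.trace K _ ((R.od.map (g j)).hom ∘ₗ (R.od.map (f i)).hom) := by
    intro i
    have := R.lefschetz (f i ≫ g j) _ (htr i j)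
    rw [R.ev.map_comp, R.od.map_comp, ModuleCat.hom_comp, ModuleCat.hom_comp] at this
    exact this
  have h5 : ∑ i, c i * algebraMap F K (if i = j then (1 : F) else 0) = 0 := by
    simp_rw [h4, mul_sub, Finset.sum_sub_distrib]
    rw [h3, h3', sub_zero]
  have h6 : ∑ i, c i * algebraMap F K (if i = j then (1 : F) else 0) = c j := by
    rw [Finset.sum_eq_single j]
    · simp
    · intro i _ hij
      simp [hij]
    · simp
  rw [← h6, h5]

section Tri

variable [HasZeroObject D] [HasShift D ℤ] [∀ n : ℤ, (shiftFunctor D n).Additive]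
  [Pretriangulated D]

include hunit in
lemma Realization.nd_of_faithful (h : R.Faithful) (N : D) : ND N := by
  have key : ∀ M : D, NDR M := by
    intro M g hg
    by_contra hne
    obtain ⟨C, u, w, hT⟩ := distinguished_cocone_triangle g
    have hod : Subsingleton (R.od.obj (𝟙_ D)) := by
      have := R.od_finite (𝟙_ D)
      exact Module.finrank_zero_iff.1 R.od_unit
    have h1 : R.od.map g = 0 := by
      ext t
      exact Subsingleton.elim _ _
    have h2 : R.od.map u = 0 := by
      ext t
      have : t = 0 := Subsingleton.elim _ _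
      rw [this, map_zero, map_zero]
    have h3 : R.ev.map g ≠ 0 := fun h0 => hne (h g h0 h1)
    have hsurj : Function.Surjective (R.ev.map g).hom := by
      have hfin := R.ev_finite (𝟙_ D)
      rw [← LinearMap.range_eq_top]
      have hle : 0 < Module.finrank K (LinearMap.range (R.ev.map g).hom) := by
        rw [Module.finrank_pos_iff, Submodule.nontrivial_iff_ne_bot]
        intro hbot
        apply h3
        ext t
        have : (R.ev.map g).hom t ∈ LinearMap.range (R.ev.map g).hom := ⟨t, rfl⟩
        rw [hbot] at this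
        simpa using this
      apply Submodule.eq_top_of_finrank_eq
      rw [R.ev_unit]
      have := Submodule.finrank_le (LinearMap.range (R.ev.map g).hom)
      rw [R.ev_unit] at this
      omega
    have h4 : R.ev.map u = 0 := by
      ext t
      obtain ⟨s, hs⟩ := hsurj t
      have h5 : g ≫ u = 0 := comp_distTriang_mor_zero₁₂ _ hT
      have h6 := congrArg (fun r => r.hom s) (congrArg R.ev.map h5)
      simp only [R.ev.map_comp, R.ev_zero] at h6
      change (R.ev.map u).hom ((R.ev.map g).hom s) = _ at h6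
      rw [hs] at h6
      exact h6
    have h7 : u = 0 := h u h4 h2
    obtain ⟨f, hf⟩ := Triangle.coyoneda_exact₂ _ hT (𝟙 (𝟙_ D)) (by
      change 𝟙 (𝟙_ D) ≫ u = 0
      rw [h7, comp_zero])
    have h8 : f ≫ g = 0 := hg f
    exact R.id_ne_zero (by rw [hf]; exact h8)
  exact ⟨ndl_of_dual (key _), key _⟩

include R hunit in
lemma Realization.ndl_of_kernel {M : D} (h : ∀ f : 𝟙_ D ⟶ M, HasKernel f) : NDL M := by
  intro f hf
  by_contra hne
  have := h f
  obtain ⟨r⟩ := (isSplitMono_of_mono (kernel.ι f)).exists_splitMono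
  obtain ⟨c, hc⟩ := hunit (r.retraction ≫ kernel.ι f)
  by_cases hc0 : c = 0
  · rw [hc0, zero_smul] at hc
    have h1 : kernel.ι f = 0 := by
      calc kernel.ι f = (kernel.ι f ≫ r.retraction) ≫ kernel.ι f := by
            rw [r.id, Category.id_comp]
        _ = 0 := by rw [Category.assoc, hc, comp_zero]
    have hmono : Mono f := Preadditive.mono_of_cancel_zero _ (fun g hg => by
      rw [← kernel.lift_ι f g hg, h1, comp_zero])
    obtain ⟨s⟩ := (isSplitMono_of_mono f).exists_splitMono
    exact R.id_ne_zero (by rw [← s.id]; exact hf _)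
  · apply hne
    have h1 : (r.retraction ≫ kernel.ι f) ≫ f = 0 := by
      rw [Category.assoc, kernel.condition, comp_zero]
    rw [hc, Linear.smul_comp, Category.id_comp] at h1
    exact (smul_eq_zero.1 h1).resolve_left hc0

include hunit in
/-- The equivalences. -/
theorem main [CharZero F] [IsIdempotentComplete D] (S : ObjectProperty D)
    [S.IsStableUnderShift ℤ] (hS : S.IsClassicalTriangulatedGenerator)
    (hdual : ∀ M, S M → S (Mᘁ)) :
    List.TFAE [
      ∀ M, S M → UnitPerfect F M,
      ∀ N : D, UnitPerfect F N,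
      ∀ P N : D, TracePerfect F P N,
      Nonempty (Abelian D),
      ∀ P : D, Module.Finite F (End P) ∧ IsSemisimpleRing (End P),
      QuasiInverses D,
      ∀ M, S M → ∀ f : 𝟙_ D ⟶ M, HasKernel f,
      R.Faithful,
      R.KFaithful] := by
  have e : (∀ N : D, UnitPerfect F N) ↔ ∀ N : D, ND N :=
    forall_congr' (fun N => R.unitPerfect_iff' hunit N)
  have h12 : (∀ M, S M → UnitPerfect F M) → ∀ N : D, ND N := fun h N =>
    nd_of_generator R hunit S hS (fun M hM n => (R.unitPerfect_iff' hunit _).1
      (h _ (S.le_shift n M hM))) N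
  have h31 : (∀ P N : D, TracePerfect F P N) → ∀ N : D, ND N := by
    intro h N
    have h0 := (tracePerfect_iff (F := F) (𝟙_ D) N).1 (h _ _)
    have h1 : ND _ := (R.unitPerfect_iff' hunit _).1 h0
    refine ND.of_iso ((ρ_ N).symm ≪≫ whiskerLeftIso N ?_) h1
    exact (rightDualIso (RightRigidCategory.rightDual (𝟙_ D)).exact exactPairingUnit).symm
  have h15 : (∀ N : D, ND N) → ∀ P : D, Module.Finite F (End P) ∧ IsSemisimpleRing (End P) :=
    fun h P => ⟨R.finite_hom hunit h P P, R.semisimple hunit h P⟩
  have h56 : (∀ P : D, Module.Finite F (End P) ∧ IsSemisimpleRing (End P)) → QuasiInverses D :=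
    fun h => quasi_of_semisimple (fun P => (h P).2)
  have h64 : QuasiInverses D → Nonempty (Abelian D) := fun h => abelian_of_quasi h
  have h46 : Nonempty (Abelian D) → QuasiInverses D := quasi_of_abelian
  have h67 : QuasiInverses D → ∀ M, S M → ∀ f : 𝟙_ D ⟶ M, HasKernel f := by
    intro h M _ f
    obtain ⟨Y, i, w, ⟨hl⟩⟩ := exists_kernel_of_quasi h f
    exact ⟨⟨⟨_, hl⟩⟩⟩
  have h71 : (∀ M, S M → ∀ f : 𝟙_ D ⟶ M, HasKernel f) → ∀ M, S M → UnitPerfect F M :=
    fun h M hM => (R.unitPerfect_iff' hunit M).2
      ⟨R.ndl_of_kernel hunit (h M hM), ndr_of_dual (R.ndl_of_kernel hunit (h _ (hdual M hM)))⟩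
  tfae_have 1 → 2 := fun h => e.2 (h12 h)
  tfae_have 2 → 3 := fun h P N => (tracePerfect_iff P N).2 (h _)
  tfae_have 3 → 5 := fun h => h15 (h31 h)
  tfae_have 5 → 6 := h56
  tfae_have 6 → 4 := h64
  tfae_have 4 → 6 := h46
  tfae_have 6 → 7 := h67
  tfae_have 7 → 1 := h71
  tfae_have 2 → 9 := fun h => R.kfaithful_of_nd hunit (e.1 h)
  tfae_have 9 → 8 := fun h => h.faithful
  tfae_have 8 → 2 := fun h => e.2 (fun N => R.nd_of_faithful hunit h N)
  tfae_finish

end Tri

end Pool.Agent.H839.DM
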